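import Pool.Graph.R_seed8.R183.PL.F2

/-! Breaker holds the segment game when `b t` grows faster than `(log t) ^ 4`. -/

open Classical Filter Topology

namespace Pool.Agent.KS6_80.BW

open Pool.Agent.R183.PL

theorem core_s (m b : ℕ → ℕ) (hmono : Monotone m) (c0 : ℕ) (hc : ∀ᶠ t in atTop, t ≤ (m t) ^ c0)
    (a : ℕ) (ha : ∀ᶠ t in atTop, m t ≤ t ^ a)
    (hb : Tendsto (fun t : ℕ => (b t : ℝ) / (Real.log t) ^ 4) atTop atTop)
    (E : ℕ) (hE : 1 ≤ E) :
    ∀ᶠ s : ℕ in atTop, ∀ n : ℕ, n ≤ 2 ^ s → 2 ^ s ≤ 2 * n → ∀ T : ℕ,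
      (m T : ℝ) < (1 - 1 / E) * (n : ℝ) → ¬ MakerBy m b n T := by
  obtain ⟨t1, ht1⟩ := eventually_atTop.1 hc
  obtain ⟨t2, ht2⟩ := eventually_atTop.1 ha
  set c := c0 + 1 with hcdef
  set κ := 4 * c + 6 with hκ
  set κ2 := 4 * (128 * E) ^ 3 + 32 * 2 * 20 * (128 * E) + 1 with hκ2
  set κ3 := κ2 * κ ^ 4 with hκ3
  obtain ⟨t3, ht3⟩ := eventually_atTop.1
    (hb.eventually (eventually_ge_atTop ((κ3 : ℝ) * (4 * (a + 1) / Real.log 2) ^ 4)))
  filter_upwards [poly_le (128 * E * κ) 1, eventually_ge_atTop (32 * E),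
    eventually_ge_atTop (t1 + 1), eventually_ge_atTop (2 * (a + 1) * (t2 + t3 + 2))]
    with s hs2 hs3 hs4 hs5
  intro n hns hsn T hT
  set u := s / (2 * (a + 1)) with hu
  have ha1 : 0 < 2 * (a + 1) := by omega
  have hu1 : t2 + t3 + 2 ≤ u := by
    rw [hu, Nat.le_div_iff_mul_le ha1]
    linarith
  have hus : u * (2 * (a + 1)) ≤ s := Nat.div_mul_le_self _ _
  have hsu : s ≤ 4 * (a + 1) * u := by
    have h1 := Nat.lt_mul_div_succ s ha1
    rw [← hu] at h1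
    have h2 : 2 * (a + 1) * (u + 1) ≤ 2 * (a + 1) * (2 * u) := Nat.mul_le_mul_left _ (by omega)
    have h3 : 2 * (a + 1) * (2 * u) = 4 * (a + 1) * u := by ring
    omega
  have hs1 : 1 ≤ s := by omega
  set p := 4 * (c + 1) * s + 2 with hp
  have hpκ : p ≤ κ * s := pfacts c s hs1
  have hp1 : 1 ≤ p := by omega
  set Lm := p + 2 * p ^ 2 + 1 with hLm
  set A1 := 4 * (1 + Lm) with hA1
  set D := 128 * E * p with hD
  set th := n / (4 * E) with hth
  set h := th / (8 * p) with hh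
  set Q0 := th / 2 + h with hQ0
  set M := n - n / E + 2 with hM
  set Nm := 2 ^ ((c + 1) * s) with hNm
  set b0 := 32 * (p + 1) * A1 * D with hb0
  have hn64 : 64 * E * p ≤ n := by
    have h1 : 64 * E * p ≤ 64 * E * (κ * s) := Nat.mul_le_mul_left _ hpκ
    have h2 : 128 * E * κ * s ^ 1 = 2 * (64 * E * (κ * s)) := by ring
    omega
  have hhdef : h = n / (32 * E * p) := by
    rw [hh, hth, Nat.div_div_eq_div_mul]
    congr 1
    ring
  obtain ⟨hh2, hDh⟩ := hfacts E p n hE hp1 hn64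
  rw [← hhdef] at hh2 hDh
  rw [← hD] at hDh
  have h8 : 8 * p * h ≤ th := Nat.mul_div_le _ _
  obtain ⟨hQKR, hhth⟩ := qfacts th h p Q0 hp1 h8 hQ0
  have hth1 : 1 ≤ th := by omega
  have h4E : 4 * E * th ≤ n := Nat.mul_div_le _ _
  have hnE : 4 * th ≤ n / E := by
    rw [Nat.le_div_iff_mul_le (by omega)]
    calc 4 * th * E = 4 * E * th := by ring
      _ ≤ n := h4E
  have hnE' : n / E ≤ n := Nat.div_le_self _ _
  have hn1 : 2 * th + M ≤ n := by omega
  have hMn : M ≤ n := by omega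
  have hNmR : (2 * Nm ^ 2) ^ 2 ≤ 2 ^ p := by
    rw [hNm, hp]
    refine le_of_eq ?_
    rw [← pow_mul, mul_pow, ← pow_mul, ← pow_add]
    congr 1
    ring
  have hLmR : 2 ^ p * (2 ^ p * 2 ^ p) ^ p < 2 ^ Lm := by
    have : 2 ^ p * (2 ^ p * 2 ^ p) ^ p = 2 ^ (p + 2 * p ^ 2) := by
      rw [← pow_add, ← pow_mul, ← pow_add]
      congr 1
      ring
    rw [this, hLm]
    exact Nat.pow_lt_pow_right (by norm_num) (by omega)
  have hbR : 32 * (p + 1) * (A1 * M) ≤ h * b0 := by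
    rw [hb0]
    calc 32 * (p + 1) * (A1 * M) ≤ 32 * (p + 1) * (A1 * (D * h)) := by
          gcongr
          omega
      _ = h * (32 * (p + 1) * A1 * D) := by ring
  let π : Par :=
    { W := 2, p := p, h := h, th := th, n := n, K := p, M := M, A1 := A1, Q0 := Q0, Nm := Nm,
      Lm := Lm, b := b0, hW := by norm_num, hp := hp1, hh := hh2,
      hQ0 := by omega, hQK := hQKR, hn := hn1, hNm := hNmR, hLm := hLmR,
      hA1 := by rw [hA1], hb := hbR }
  -- bounds for times up to T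
  have hn0 : 1 ≤ n := by
    have : 1 ≤ 64 * E * p := Nat.mul_pos (by omega) hp1
    omega
  have hER : (1 : ℝ) ≤ (E : ℝ) := by exact_mod_cast hE
  have hmT : m T < n - n / E := by
    have h4 : ((n / E : ℕ) : ℝ) ≤ (n : ℝ) / E := Nat.cast_div_le
    have h6 : (1 - 1 / (E : ℝ)) * (n : ℝ) = n - n / E := by ring
    have h5 : (m T : ℝ) < ((n - n / E : ℕ) : ℝ) := by
      push_cast [hnE']
      linarith
    exact_mod_cast h5
  have hnt1 : t1 ≤ n := by
    have h1 : t1 < 2 ^ t1 := Nat.lt_two_pow_self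
    have h2 : 2 ^ (t1 + 1) ≤ 2 ^ s := Nat.pow_le_pow_right (by norm_num) hs4
    rw [pow_succ] at h2
    omega
  have hTn : T ≤ n ^ c := by
    rcases lt_or_ge T t1 with hlt | hge
    · calc T ≤ n := by omega
        _ = n ^ 1 := (pow_one n).symm
        _ ≤ n ^ c := Nat.pow_le_pow_right hn0 (by omega)
    · calc T ≤ (m T) ^ c0 := ht1 T hge
        _ ≤ n ^ c0 := Nat.pow_le_pow_left (by omega) _
        _ ≤ n ^ c := Nat.pow_le_pow_right hn0 (by omega)
  have hTs : T ≤ 2 ^ (c * s) := by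
    calc T ≤ n ^ c := hTn
      _ ≤ (2 ^ s) ^ c := Nat.pow_le_pow_left hns _
      _ = 2 ^ (c * s) := by rw [← pow_mul, mul_comm]
  have H1 : ∀ t, 1 ≤ t → t ≤ T → m t ≤ π.M := by
    intro t _ htT
    change m t ≤ M
    have := hmono htT
    omega
  have H3 : ∑ t ∈ Finset.Icc 1 T, m t ≤ π.Nm := by
    change ∑ t ∈ Finset.Icc 1 T, m t ≤ Nm
    calc ∑ t ∈ Finset.Icc 1 T, m t ≤ ∑ _t ∈ Finset.Icc 1 T, n := by
          refine Finset.sum_le_sum fun t ht => ?_
          rw [Finset.mem_Icc] at ht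
          exact (H1 t ht.1 ht.2).trans hMn
      _ = T * n := by simp
      _ ≤ 2 ^ (c * s) * 2 ^ s := Nat.mul_le_mul hTs hns
      _ = Nm := by rw [hNm, ← pow_add]; congr 1; ring
  set BB := 4 * D ^ 3 + b0 with hBB
  set t0 := 2 ^ u with ht0
  have hB0 : π.B0 ≤ BB := B0_bound n th h M D b0 hDh hMn hh2 hhth
  have hBBp : BB + 1 ≤ κ3 * s ^ 4 := by
    have e1 : A1 ≤ 20 * p ^ 2 := afacts p hp1
    have e2 : BB + 1 ≤ κ2 * p ^ 4 := by
      have e3 : b0 ≤ 32 * (2 * p) * (20 * p ^ 2) * (128 * E * p) := by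
        rw [hb0, hD]
        gcongr
        omega
      have e4 : 4 * D ^ 3 ≤ 4 * (128 * E) ^ 3 * p ^ 4 := by
        rw [hD, mul_pow]
        have : p ^ 3 ≤ p ^ 4 := Nat.pow_le_pow_right hp1 (by norm_num)
        calc 4 * ((128 * E) ^ 3 * p ^ 3) = 4 * (128 * E) ^ 3 * p ^ 3 := by ring
          _ ≤ 4 * (128 * E) ^ 3 * p ^ 4 := Nat.mul_le_mul_left _ this
      have e5 : 1 ≤ p ^ 4 := Nat.one_le_pow _ _ hp1
      calc BB + 1 ≤ 4 * (128 * E) ^ 3 * p ^ 4 + 32 * (2 * p) * (20 * p ^ 2) * (128 * E * p)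
            + p ^ 4 := by rw [hBB]; omega
        _ = κ2 * p ^ 4 := by rw [hκ2]; ring
    calc BB + 1 ≤ κ2 * p ^ 4 := e2
      _ ≤ κ2 * (κ * s) ^ 4 := by gcongr
      _ = κ3 * s ^ 4 := by rw [hκ3]; ring
  have hut0 : u < t0 := Nat.lt_two_pow_self
  have H2 : ∀ t, t0 ≤ t → t ≤ T → π.B0 ≤ b t := by
    intro t ht _
    refine hB0.trans ?_
    have h1 := ht3 t (by omega)
    have hl2 : 0 < Real.log 2 := Real.log_pos (by norm_num)
    have h2 : (u : ℝ) * Real.log 2 ≤ Real.log t := by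
      rw [← Real.log_pow]
      apply Real.log_le_log (by positivity)
      exact_mod_cast ht
    have hu0 : (0 : ℝ) < u := by
      have : 0 < u := by omega
      exact_mod_cast this
    have hlog : 0 < Real.log t := lt_of_lt_of_le (by positivity) h2
    rw [le_div_iff₀ (by positivity)] at h1
    have h3 : (s : ℝ) ≤ (4 * (a + 1) / Real.log 2) * Real.log t := by
      have h4 : (s : ℝ) ≤ 4 * (a + 1) * u := by exact_mod_cast hsu
      calc (s : ℝ) ≤ 4 * (a + 1) * u := h4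
        _ = (4 * (a + 1) / Real.log 2) * (u * Real.log 2) := by field_simp
        _ ≤ _ := by gcongr
    have h5 : (κ3 : ℝ) * (s : ℝ) ^ 4 ≤ b t := by
      calc (κ3 : ℝ) * (s : ℝ) ^ 4 ≤ κ3 * ((4 * (a + 1) / Real.log 2) * Real.log t) ^ 4 := by gcongr
        _ = κ3 * (4 * (a + 1) / Real.log 2) ^ 4 * Real.log t ^ 4 := by ring
        _ ≤ b t := h1
    have h6 : κ3 * s ^ 4 ≤ b t := by exact_mod_cast h5
    omega
  have ht0' : 1 ≤ t0 := Nat.one_le_two_pow
  have H4 : ∑ t ∈ Finset.Ico 1 t0, m t < π.th := by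
    change ∑ t ∈ Finset.Ico 1 t0, m t < th
    have h1 : ∑ t ∈ Finset.Ico 1 t0, m t ≤ t0 * t0 ^ a := by
      calc ∑ t ∈ Finset.Ico 1 t0, m t ≤ ∑ _t ∈ Finset.Ico 1 t0, t0 ^ a := by
            refine Finset.sum_le_sum fun t ht => ?_
            rw [Finset.mem_Ico] at ht
            exact (hmono ht.2.le).trans (ht2 t0 (by omega))
        _ = (t0 - 1) * t0 ^ a := by simp
        _ ≤ t0 * t0 ^ a := Nat.mul_le_mul_right _ (by omega)
    have h2 : t0 * t0 ^ a = 2 ^ (u * (a + 1)) := by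
      rw [ht0, ← pow_succ', ← pow_mul]
    have h3 : u * (a + 1) ≤ s / 2 := by
      rw [Nat.le_div_iff_mul_le (by norm_num)]
      calc u * (a + 1) * 2 = u * (2 * (a + 1)) := by ring
        _ ≤ s := hus
    have h4 : 2 ^ (u * (a + 1)) ≤ 2 ^ (s / 2) := Nat.pow_le_pow_right (by norm_num) h3
    have h5 : 16 * E < 2 ^ (s / 2) := by
      have : s / 2 < 2 ^ (s / 2) := Nat.lt_two_pow_self
      omega
    have h6 : 2 ^ (s / 2) * 2 ^ (s / 2) ≤ 2 ^ s := by
      rw [← pow_add]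
      exact Nat.pow_le_pow_right (by norm_num) (by omega)
    have h7 : 16 * E * 2 ^ (s / 2) ≤ 2 ^ s := (Nat.mul_le_mul_right _ h5.le).trans h6
    have h8 : 2 * 2 ^ (s / 2) ≤ th := by
      rw [hth, Nat.le_div_iff_mul_le (by omega)]
      have : 2 * 2 ^ (s / 2) * (4 * E) = (16 * E * 2 ^ (s / 2)) / 2 := by
        have e : 16 * E * 2 ^ (s / 2) = (2 * 2 ^ (s / 2) * (4 * E)) * 2 := by ring
        rw [e, Nat.mul_div_cancel _ (by norm_num)]
      omega
    have h9 : 0 < 2 ^ (s / 2) := Nat.two_pow_pos _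
    omega
  have H5 : (T + 1) * π.dl < π.W ^ (π.K - 1) * π.A1 * π.h := by
    change (T + 1) * (h * (2 * (1 + Lm)) * Nm ^ 2) < 2 ^ (p - 1) * A1 * h
    have h1 : (T + 1) * Nm ^ 2 < 2 ^ p := by
      have h2 : T + 1 ≤ 2 ^ (c * s + 1) := by
        rw [pow_succ]
        have : 1 ≤ 2 ^ (c * s) := Nat.one_le_two_pow
        omega
      calc (T + 1) * Nm ^ 2 ≤ 2 ^ (c * s + 1) * (2 ^ ((c + 1) * s)) ^ 2 :=
            Nat.mul_le_mul_right _ h2
        _ = 2 ^ (c * s + 1 + (c + 1) * s * 2) := by rw [← pow_mul, ← pow_add]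
        _ < 2 ^ p := by
            apply Nat.pow_lt_pow_right (by norm_num)
            exact efacts c s
    have h2 : 2 ^ (p - 1) * 2 = 2 ^ p := by
      rw [← pow_succ, Nat.sub_add_cancel hp1]
    calc (T + 1) * (h * (2 * (1 + Lm)) * Nm ^ 2) = ((T + 1) * Nm ^ 2) * (h * (2 * (1 + Lm))) := by
          ring
      _ < 2 ^ p * (h * (2 * (1 + Lm))) := by
          refine Nat.mul_lt_mul_of_pos_right h1 ?_
          exact Nat.mul_pos (by omega) (by omega)
      _ = 2 ^ (p - 1) * A1 * h := by rw [← h2, hA1]; ring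
  have hn2 : 2 ≤ π.n := by
    change 2 ≤ n
    omega
  exact breaker_holds π hp1 m b t0 T ht0' H1 H2 H3 hn2 H4 H5

/-- Breaker prevents a win before Maker can claim about `n` points in one turn. -/
theorem core (m b : ℕ → ℕ) (hmono : Monotone m) (c0 : ℕ) (hc : ∀ᶠ t in atTop, t ≤ (m t) ^ c0)
    (a : ℕ) (ha : ∀ᶠ t in atTop, m t ≤ t ^ a)
    (hb : Tendsto (fun t : ℕ => (b t : ℝ) / (Real.log t) ^ 4) atTop atTop)
    (E : ℕ) (hE : 1 ≤ E) :
    ∀ᶠ n : ℕ in atTop, ∀ T : ℕ, (m T : ℝ) < (1 - 1 / E) * (n : ℝ) → ¬ MakerBy m b n T := by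
  obtain ⟨s0, hs0⟩ := eventually_atTop.1 (core_s m b hmono c0 hc a ha hb E hE)
  filter_upwards [eventually_ge_atTop (2 ^ s0)] with n hn T hT
  have hn1 : n ≠ 0 := by
    have : 1 ≤ 2 ^ s0 := Nat.one_le_two_pow
    omega
  have h1 := Nat.lt_pow_succ_log_self (b := 2) (by norm_num) n
  have h2 := Nat.pow_log_le_self 2 hn1
  refine hs0 (Nat.log 2 n + 1) ?_ n h1.le (by rw [pow_succ]; omega) T hT
  have : s0 ≤ Nat.log 2 n := Nat.le_log_of_pow_le (by norm_num) hn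
  omega

end Pool.Agent.KS6_80.BW
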