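import Pool.Agent.KS6_80.BW.A

/-! Breaker wins: `m (τ_n) / n → 1`. -/

open Classical Filter Topology

namespace Pool.Agent.KS6_80.BW

open Pool.Agent.R183.PL

/-- The game `(m, b)` is a Breaker win: `τ_n` exists for every `n` and `m (τ_n) = (1 - o(1)) n`, that
is, `m (τ_n) / n → 1`. -/
def BreakerWin (m b : ℕ → ℕ) : Prop :=
  ∃ τ : ℕ → ℕ, (∀ n, IsTau m b n (τ n)) ∧
    Tendsto (fun n : ℕ => (m (τ n) : ℝ) / n) atTop (𝓝 1)

/-- `k` consecutive points of a horizontal line -/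
noncomputable def row (Y : ℤ) (k : ℕ) : Finset (ℤ × ℤ) := (Finset.range k).image fun i : ℕ => ((i : ℤ), Y)

theorem card_row (Y : ℤ) (k : ℕ) : (row Y k).card = k := by
  unfold row
  rw [Finset.card_image_of_injective, Finset.card_range]
  intro i j h
  have := (Prod.mk.injEq _ _ _ _).mp h
  exact_mod_cast this.1

theorem mem_row {Y : ℤ} {k : ℕ} {p : ℤ × ℤ} (h : p ∈ row Y k) : p.2 = Y := by
  unfold row at h
  rw [Finset.mem_image] at h
  obtain ⟨i, _, rfl⟩ := h
  rfl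

theorem exists_row (F : Finset (ℤ × ℤ)) : ∃ Y : ℤ, ∀ p ∈ F, p.2 ≠ Y := by
  obtain ⟨Y, hY⟩ := Infinite.exists_notMem_finset (F.image Prod.snd)
  refine ⟨Y, fun p hp h => hY ?_⟩
  rw [Finset.mem_image]
  exact ⟨p, hp, h⟩

theorem row_disjoint {F : Finset (ℤ × ℤ)} {Y : ℤ} (hY : ∀ p ∈ F, p.2 ≠ Y) (k : ℕ) :
    Disjoint (row Y k) F := by
  rw [Finset.disjoint_left]
  intro p hp hF
  exact hY p hF (mem_row hp)

theorem forces_far (m b : ℕ → ℕ) (n : ℕ) : ∀ (k t : ℕ) (Mk Br : Finset (ℤ × ℤ)),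
    n ≤ m (t + k) → Forces m b n (k + 1) t Mk Br := by
  intro k
  induction k with
  | zero =>
    intro t Mk Br h
    obtain ⟨Y, hY⟩ := exists_row (Mk ∪ Br)
    refine ⟨row Y (m t), card_row Y _, row_disjoint hY _, Or.inl ⟨row Y n, ?_, card_row Y n,
      ⟨0, 1, Y, Or.inr one_ne_zero, ?_⟩, ?_⟩⟩
    · refine Finset.Subset.trans ?_ Finset.subset_union_right
      unfold row
      apply Finset.image_subset_image
      intro i hi
      rw [Finset.mem_range] at *
      have : n ≤ m t := by simpa using h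
      omega
    · intro p hp
      rw [mem_row hp]
      ring
    · rintro p hp q hq r hr ⟨s, _, _, _, h4⟩
      rw [mem_row hp, mem_row hq, sub_self, mul_zero, add_zero] at h4
      exact hY r (Finset.mem_union_right _ hr) (by exact_mod_cast h4)
  | succ k ih =>
    intro t Mk Br h
    obtain ⟨Y, hY⟩ := exists_row (Mk ∪ Br)
    refine ⟨row Y (m t), card_row Y _, row_disjoint hY _, Or.inr fun C _ _ => ?_⟩
    apply ih
    rw [show t + 1 + k = t + (k + 1) by ring]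
    exact h

theorem makerBy_of_le {m b : ℕ → ℕ} {n T : ℕ} (hT : 1 ≤ T) (h : n ≤ m T) : MakerBy m b n T := by
  obtain ⟨k, rfl⟩ : ∃ k, T = k + 1 := ⟨T - 1, by omega⟩
  exact forces_far m b n k 1 ∅ ∅ (by rwa [add_comm])

theorem breakerWin (m b : ℕ → ℕ) (hmono : Monotone m) (c : ℕ) (hc : ∀ᶠ t in atTop, t ≤ (m t) ^ c)
    (a : ℕ) (ha : ∀ᶠ t in atTop, m t ≤ t ^ a)
    (hr : Tendsto (fun t : ℕ => (m (t + 1) : ℝ) / m t) atTop (𝓝 1))
    (hb : Tendsto (fun t : ℕ => (b t : ℝ) / (Real.log t) ^ 4) atTop atTop) : BreakerWin m b := by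
  have hunb : ∀ n : ℕ, ∃ T, 1 ≤ T ∧ n ≤ m T := by
    intro n
    by_contra hcon
    push Not at hcon
    obtain ⟨t1, ht1⟩ := eventually_atTop.1 hc
    set T := t1 + n ^ c + 1 with hT
    have h1 := ht1 T (by omega)
    have h2 := hcon T (by omega)
    have h3 : (m T) ^ c ≤ n ^ c := Nat.pow_le_pow_left h2.le _
    omega
  have hex : ∀ n : ℕ, ∃ τ, IsTau m b n τ := by
    intro n
    obtain ⟨T, h1, h2⟩ := hunb n
    have hne : {T | MakerBy m b n T}.Nonempty := ⟨T, makerBy_of_le h1 h2⟩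
    exact ⟨sInf {T | MakerBy m b n T}, Nat.sInf_mem hne, fun T' hT' => Nat.sInf_le hT'⟩
  choose τ hτ using hex
  refine ⟨τ, hτ, ?_⟩
  rw [Metric.tendsto_atTop]
  intro ε hε
  obtain ⟨E, hE⟩ := exists_nat_one_div_lt hε
  obtain ⟨n1, hn1⟩ := eventually_atTop.1 (core m b hmono c hc a ha hb (E + 1) (by omega))
  obtain ⟨t4, ht4⟩ := eventually_atTop.1 (hr.eventually (gt_mem_nhds (show (1 : ℝ) < 1 + ε by linarith)))
  obtain ⟨t5, ht5⟩ := eventually_atTop.1 hc
  refine ⟨n1 + m (t4 + t5 + 2) + 2, fun n hn => ?_⟩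
  have hn0 : (0 : ℝ) < n := by
    have : 0 < n := by omega
    exact_mod_cast this
  -- lower bound
  have hlow : (1 - 1 / ((E + 1 : ℕ) : ℝ)) * n ≤ m (τ n) := by
    by_contra hcon
    push Not at hcon
    exact hn1 n (by omega) (τ n) hcon (hτ n).1
  -- upper bound
  have hup : (m (τ n) : ℝ) < (1 + ε) * n := by
    obtain ⟨T, ⟨h1, h2⟩, h3⟩ : ∃ T, (1 ≤ T ∧ n ≤ m T) ∧ ∀ T', T' < T → ¬ (1 ≤ T' ∧ n ≤ m T') :=
      ⟨Nat.find (hunb n), Nat.find_spec (hunb n), fun T' hT' => Nat.find_min (hunb n) hT'⟩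
    have h4 : τ n ≤ T := (hτ n).2 (makerBy_of_le h1 h2)
    have h5 : t4 + t5 + 2 < T := by
      by_contra hcon
      push Not at hcon
      have := hmono hcon
      omega
    obtain ⟨T', rfl⟩ : ∃ T', T = T' + 1 := ⟨T - 1, by omega⟩
    have h6 : m T' < n := by
      have := h3 T' (by omega)
      by_contra hcon
      push Not at hcon
      exact this ⟨by omega, hcon⟩
    have h7 := ht4 T' (by omega)
    have h8 : 0 < m T' := by
      rcases Nat.eq_zero_or_pos (m T') with h0 | h0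
      · have h9 := ht5 T' (by omega)
        rw [h0] at h9
        rcases Nat.eq_zero_or_pos c with hc0 | hc0
        · rw [hc0, pow_zero] at h9
          omega
        · rw [zero_pow (by omega)] at h9
          omega
      · exact h0
    have h8' : (0 : ℝ) < m T' := by exact_mod_cast h8
    rw [div_lt_iff₀ h8'] at h7
    have h9 : (m (τ n) : ℝ) ≤ m (T' + 1) := by exact_mod_cast hmono h4
    have h10 : (m T' : ℝ) < n := by exact_mod_cast h6
    calc (m (τ n) : ℝ) ≤ m (T' + 1) := h9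
      _ < (1 + ε) * m T' := h7
      _ < (1 + ε) * n := by
        apply mul_lt_mul_of_pos_left h10
        linarith
  rw [Real.dist_eq, abs_lt]
  constructor
  · rw [lt_sub_iff_add_lt, lt_div_iff₀ hn0]
    have h1 : (1 : ℝ) / ((E + 1 : ℕ) : ℝ) < ε := by
      push_cast
      exact hE
    have h2 : (1 : ℝ) / ((E + 1 : ℕ) : ℝ) * n < ε * n := mul_lt_mul_of_pos_right h1 hn0
    linarith
  · rw [sub_lt_iff_lt_add, div_lt_iff₀ hn0]
    linarith

theorem BreakerWin.not_makerWin {m b : ℕ → ℕ} (h : BreakerWin m b) : ¬ MakerWin m b := by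
  rintro ⟨ε, hε, hev⟩
  obtain ⟨τ, h1, h2⟩ := h
  have h3 := h2.eventually (lt_mem_nhds (show 1 - ε < (1 : ℝ) by linarith))
  obtain ⟨n, h4, h5, h6⟩ := (hev.and (h3.and (eventually_ge_atTop 1))).exists
  obtain ⟨τ', h7, h8⟩ := h4
  have h9 : τ' = τ n := h7.unique (h1 n)
  rw [h9] at h8
  have hn0 : (0 : ℝ) < n := by exact_mod_cast h6
  rw [lt_div_iff₀ hn0] at h5
  linarith

end Pool.Agent.KS6_80.BW
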